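import Mathlib
import Pool.Agent.Q129.LE.Main

/-! # The list edge colouring conjecture: localisation

A multigraph is given by its vertices `V`, its edges `E` and the two ends `s e`, `t e` of each edge.
The list edge colouring conjecture (for simple graphs) is equivalent to the same statement for
loopless multigraphs, and to its restriction to `k`-regular simple graphs `G` with chromatic index
`k`, of girth at least `g`, which become bipartite after the deletion of a set `T` of at most
`ω n` vertices (`n` the order, `ω` any function tending to infinity) at pairwise distances at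
least `g`, and lists which are the same for any two edges with a common end outside of `T`. -/

set_option autoImplicit false

namespace Pool.Agent.Results.MP_2f9829_co.Localisation

open Filter Pool.Agent.Q129.LE

/-- a proper edge colouring of a multigraph -/
def ProperM {V E : Type} (s t : E → V) (c : E → ℕ) : Prop :=
  ∀ e f, e ≠ f → ∀ v, (s e = v ∨ t e = v) → (s f = v ∨ t f = v) → c e ≠ c f

/-- a proper edge colouring from the lists `L` exists -/
def FromLists {V : Type} (G : SimpleGraph V) (L : G.edgeSet → Finset ℕ) : Prop :=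
  ∃ f : G.edgeSet → ℕ, (∀ e, f e ∈ L e) ∧ ∀ e e', G.lineGraph.Adj e e' → f e ≠ f e'

/-- The list edge colouring conjecture (word for word the frozen statement `S07911`). -/
def LECC : Prop :=
  ∀ (V : Type) [Fintype V] (G : SimpleGraph V) (k : ℕ),
    G.lineGraph.Colorable k ↔
      ∀ L : G.edgeSet → Finset ℕ, (∀ e, k ≤ (L e).card) →
        ∃ f : G.edgeSet → ℕ, (∀ e, f e ∈ L e) ∧
          ∀ e e', G.lineGraph.Adj e e' → f e ≠ f e'

/-- `k`-edge-colourable simple graphs are `k`-edge-choosable. -/
def SimpleCase (k : ℕ) : Prop :=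
  ∀ (V : Type) [Fintype V] (G : SimpleGraph V), G.lineGraph.Colorable k →
    ∀ L : G.edgeSet → Finset ℕ, (∀ e, k ≤ (L e).card) → FromLists G L

/-- `k`-edge-colourable loopless multigraphs are `k`-edge-choosable. -/
def MultigraphCase (k : ℕ) : Prop :=
  ∀ (V E : Type) [Finite V] [Finite E] (s t : E → V), (∀ e, s e ≠ t e) →
    (∃ c : E → ℕ, (∀ e, c e < k) ∧ ProperM s t c) →
    ∀ L : E → Finset ℕ, (∀ e, k ≤ (L e).card) → ∃ c : E → ℕ, (∀ e, c e ∈ L e) ∧ ProperM s t c

/-- The restricted statement: `G` is a `k`-regular simple graph of order `n`, edge-colourable with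
`k` colours, of girth at least `g`; `T` is a set of at most `ω n` vertices at pairwise distances at
least `g` and `G - T` is bipartite; all lists have exactly `k` colours and any two edges with a
common end outside of `T` have the same list. Then `G` is colourable from the lists. -/
def LocalCase (k g : ℕ) (ω : ℕ → ℕ) : Prop :=
  ∀ (V : Type) [Fintype V] (G : SimpleGraph V) (T : Set V) (L : G.edgeSet → Finset ℕ),
    (∀ v, (G.neighborSet v).ncard = k) → G.lineGraph.Colorable k → (g : ℕ∞) ≤ G.egirth →
    T.ncard ≤ ω (Fintype.card V) →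
    (∀ u ∈ T, ∀ v ∈ T, u ≠ v → (g : ℕ∞) ≤ G.edist u v) → (G.induce Tᶜ).Colorable 2 →
    (∀ e, (L e).card = k) →
    (∀ v ∉ T, ∀ e e' : G.edgeSet, v ∈ e.1 → v ∈ e'.1 → L e = L e') → FromLists G L

theorem simple_of_multi {k : ℕ} (h : MultigraphCase k) : SimpleCase k := by
  classical
  intro V _ G hG L hL
  obtain ⟨C⟩ := hG
  let s : G.edgeSet → V := fun e => (Quot.out e.1).1
  let t : G.edgeSet → V := fun e => (Quot.out e.1).2
  have hst : ∀ e : G.edgeSet, s(s e, t e) = e.1 := fun e => Quot.out_eq e.1
  have hmem : ∀ (e : G.edgeSet) (v : V), (s e = v ∨ t e = v) ↔ v ∈ e.1 := by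
    intro e v
    rw [← hst e, Sym2.mem_iff]
    constructor
    · rintro (h | h)
      · exact Or.inl h.symm
      · exact Or.inr h.symm
    · rintro (h | h)
      · exact Or.inl h.symm
      · exact Or.inr h.symm
  have hne : ∀ e, s e ≠ t e := by
    intro e he
    have h1 : G.Adj (s e) (t e) := by
      rw [← SimpleGraph.mem_edgeSet, hst e]
      exact e.2
    exact h1.ne he
  have hp : ProperM s t (fun e => (C e : ℕ)) := by
    intro e f hef v hv hv'
    have h1 : G.lineGraph.Adj e f := by
      rw [SimpleGraph.lineGraph_adj_iff_exists]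
      exact ⟨hef, v, (hmem e v).mp hv, (hmem f v).mp hv'⟩
    have h2 := C.valid h1
    exact fun h3 => h2 (Fin.ext h3)
  obtain ⟨c, hc, hcp⟩ := h V G.edgeSet s t hne ⟨_, fun e => (C e).isLt, hp⟩ L hL
  refine ⟨c, hc, ?_⟩
  intro e e' hee
  rw [SimpleGraph.lineGraph_adj_iff_exists] at hee
  obtain ⟨hne', v, hv, hv'⟩ := hee
  exact hcp e e' hne' v ((hmem e v).mpr hv) ((hmem e' v).mpr hv')

theorem local_of_simple {k : ℕ} (g : ℕ) (ω : ℕ → ℕ) (h : SimpleCase k) : LocalCase k g ω := by
  intro V _ G T L _ hG _ _ _ _ hL _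
  exact h V G hG L (fun e => (hL e).ge)

theorem multi_of_localCase {k g : ℕ} {ω : ℕ → ℕ} (hω : Tendsto ω atTop atTop)
    (h : LocalCase k g ω) : MultigraphCase k := by
  intro V E _ _ s t hne hc L hL
  obtain ⟨c0, hc0, hp0⟩ := hc
  exact multi_of_local hω h s t hne c0 hc0 hp0 L hL

theorem lecc_iff : LECC ↔ ∀ k, SimpleCase k := by
  classical
  constructor
  · intro h k V _ G hG L hL
    exact (h V G k).mp hG L hL
  · intro h V _ G k
    refine ⟨fun hG L hL => h k V G hG L hL, fun hG => ?_⟩
    obtain ⟨f, hf, hp⟩ := hG (fun _ => Finset.range k) (fun _ => by simp)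
    refine ⟨SimpleGraph.Coloring.mk (fun e => ⟨f e, Finset.mem_range.mp (hf e)⟩) ?_⟩
    intro e e' hee h1
    exact hp e e' hee (Fin.mk.inj_iff.mp h1)

/-- **Localisation of the list edge colouring conjecture.** -/
theorem result :
    (∀ (k g : ℕ) (ω : ℕ → ℕ), Tendsto ω atTop atTop →
      (LocalCase k g ω ↔ MultigraphCase k) ∧ (LocalCase k g ω ↔ SimpleCase k)) ∧
    (LECC ↔ ∀ k, MultigraphCase k) ∧
    ∀ (g : ℕ → ℕ) (ω : ℕ → ℕ → ℕ), (∀ k, Tendsto (ω k) atTop atTop) →
      (LECC ↔ ∀ k, LocalCase k (g k) (ω k)) := by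
  have h1 : ∀ (k g : ℕ) (ω : ℕ → ℕ), Tendsto ω atTop atTop →
      (LocalCase k g ω ↔ MultigraphCase k) ∧ (LocalCase k g ω ↔ SimpleCase k) := by
    intro k g ω hω
    refine ⟨⟨multi_of_localCase hω, fun h => local_of_simple g ω (simple_of_multi h)⟩,
      ⟨fun h => simple_of_multi (multi_of_localCase hω h), local_of_simple g ω⟩⟩
  refine ⟨h1, ?_, ?_⟩
  · rw [lecc_iff]
    constructor
    · intro h k
      exact ((h1 k 0 (fun n => n) tendsto_id).1).mp (((h1 k 0 (fun n => n) tendsto_id).2).mpr (h k))
    · intro h k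
      exact simple_of_multi (h k)
  · intro g ω hω
    rw [lecc_iff]
    exact forall_congr' (fun k => ((h1 k (g k) (ω k) (hω k)).2).symm)

end Pool.Agent.Results.MP_2f9829_co.Localisation
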