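import Pool.Agent.Q127.LR.Fin

/-!
# The list edge-colouring conjecture for sparse random graphs

For average degree up to `(1 - o(1)) / (2 log 2 - 1) * log n`, that is, as long as the maximum
degree is at least about twice the average degree, the edges of almost every graph can be properly
coloured from all lists of as many colours as the maximum degree. The same holds simultaneously for
all its subgraphs of maximum degree at least `2 + ε` times the average degree and at least an
`ε`-fraction of the maximum degree of the whole graph.

The deterministic part is the theorem of the starting file `SparseLargeVertices`: a graph of maximum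
degree `D` can be coloured if every component of the graph of the heavy edges (the edges `uv` with
`deg u + deg v ≥ D + 2`) has fewer than `13 / 72 * (D + 2) ^ 2` edges. Here it is shown that in the
random graph every such component, for every `D` in question, contains only a bounded number `k` of
vertices of degree at least `(D + 2) / 2`, so that it has at most `k D` edges: otherwise there would
be a connected set of fewer than `2 k` vertices, `k` of which have degree at least `(D + 2) / 2`,
and the expected number of such sets is small when `D / 2` exceeds the average degree by a constant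
factor.
-/

set_option autoImplicit false

namespace Pool.Agent.Results.MP_2f9829_co.SparseRandomGraphs

/-- The degree of `v` in `G`. -/
noncomputable def deg {n : ℕ} (G : SimpleGraph (Fin n)) (v : Fin n) : ℕ :=
  (G.neighborSet v).ncard

/-- The list edge-colouring conjecture for the graph `G`: for every `k`, the edges can be properly
coloured with `k` colours if and only if they can be properly coloured from all lists of at least
`k` colours. -/
def ListEdge {V : Type} (G : SimpleGraph V) : Prop :=
  ∀ k : ℕ, G.lineGraph.Colorable k ↔
    ∀ L : G.edgeSet → Finset ℕ, (∀ e, k ≤ (L e).card) →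
      ∃ f : G.edgeSet → ℕ, (∀ e, f e ∈ L e) ∧ ∀ e e', G.lineGraph.Adj e e' → f e ≠ f e'

/-- The edges of `G` can be properly coloured from all lists of at least as many colours as the
maximum degree of `G`. -/
def MaxDegreeLists {n : ℕ} (G : SimpleGraph (Fin n)) : Prop :=
  ∀ L : G.edgeSet → Finset ℕ, (∀ e v, deg G v ≤ (L e).card) →
    ∃ f : G.edgeSet → ℕ, (∀ e, f e ∈ L e) ∧ ∀ e e', G.lineGraph.Adj e e' → f e ≠ f e'

/-- The list edge-colouring conjecture holds for `G` and for all subgraphs `H` of `G` in which some
vertex has degree at least `(2 + ε) a` and at least `ε` times the maximum degree of `G`; moreover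
for these graphs lists of as many colours as the maximum degree suffice. -/
def Good {n : ℕ} (ε a : ℝ) (G : SimpleGraph (Fin n)) : Prop :=
  ∀ H : SimpleGraph (Fin n), H ≤ G →
    (H = G ∨ ∃ v, (2 + ε) * a ≤ deg H v ∧ ∀ w, ε * deg G w ≤ deg H v) →
    ListEdge H ∧ MaxDegreeLists H

/-- The probability that the binomial random graph `G(n,p)` has the property `P`. -/
noncomputable def prob (n : ℕ) (p : ℝ) (P : SimpleGraph (Fin n) → Prop) : ℝ := by
  classical
  exact ∑ G : SimpleGraph (Fin n),
    if P G then p ^ G.edgeSet.ncard * (1 - p) ^ (n.choose 2 - G.edgeSet.ncard) else 0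

/-- For every `ε > 0` and all large `n`:

(1) for every `p ≥ 0` with `n p ≤ (1 - ε) / (2 log 2 - 1) * log n` (in particular `p ≤ 1`), the
random graph `G(n,p)` is `Good ε (n p)` with probability at least `1 - ε`;

(2) for every `m` with `2 m / n ≤ (1 - ε) / (2 log 2 - 1) * log n`, all but an `ε`-fraction of the
graphs on `n` vertices with exactly `m` edges are `Good ε (2 m / n)`. -/
theorem result : ∀ ε : ℝ, 0 < ε → ∃ N : ℕ, ∀ n : ℕ, N ≤ n →
    (∀ p : ℝ, 0 ≤ p → n * p * (2 * Real.log 2 - 1) ≤ (1 - ε) * Real.log n →
      p ≤ 1 ∧ 1 - ε ≤ prob n p (fun G => Good ε (n * p) G)) ∧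
    ∀ m : ℕ, 2 * m / n * (2 * Real.log 2 - 1) ≤ (1 - ε) * Real.log n →
      m ≤ n.choose 2 ∧
      ({G : SimpleGraph (Fin n) | G.edgeSet.ncard = m ∧ ¬ Good ε (2 * m / n) G}.ncard : ℝ) ≤
        ε * {G : SimpleGraph (Fin n) | G.edgeSet.ncard = m}.ncard := by
  have h1 : ∀ (n : ℕ) (p : ℝ) (P : SimpleGraph (Fin n) → Prop),
      prob n p P = Pool.Agent.TH948.SH.gnp n p P := by
    intro n p P
    unfold prob Pool.Agent.TH948.SH.gnp
    exact Finset.sum_congr (by ext; simp) fun _ _ => rfl
  have h2 : ∀ (n : ℕ) (ε a : ℝ) (G : SimpleGraph (Fin n)),
      Good ε a G = Pool.Agent.Q127.LR.Good ε a G := fun _ _ _ _ => rfl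
  intro ε hε
  simp only [h1, h2]
  exact Pool.Agent.Q127.LR.final ε hε

end Pool.Agent.Results.MP_2f9829_co.SparseRandomGraphs
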